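import Pool.Agent.Helper85.CR.Goals

/-!
Project CR (MP_bdaf95_co), packet SCNT: counting after attaching a layer.
-/

set_option autoImplicit false

namespace Pool.Agent.Helper54.CR

open Pool.Agent.Helper85.CR

lemma sum_deg {V : Type} [Fintype V] (G : SimpleGraph V) :
    ∑ v, deg G v = 2 * G.edgeSet.ncard := by
  classical
  have h := G.sum_degrees_eq_twice_card_edges
  have h1 : ∀ v, deg G v = G.degree v := by
    intro v
    rw [deg, Set.ncard_eq_toFinset_card']
    rfl
  have h2 : G.edgeSet.ncard = G.edgeFinset.card := by
    rw [Set.ncard_eq_toFinset_card']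
    rfl
  rw [h2, ← h]
  exact Finset.sum_congr rfl fun v _ => h1 v

theorem gSCNT (hDEXT : StmtDEXT) : StmtSCNT := by
  intro V _ G ρ t up nn ι x s m h hm hc hl
  classical
  obtain ⟨d1, d2, d3⟩ := hDEXT V G ρ t up nn hc.inj hl.symm hl.irr
  have hsum : 2 * (ext G ρ up nn).edgeSet.ncard = 2 * G.edgeSet.ncard + (6 * t + 2 * s) := by
    rw [← sum_deg, Fintype.sum_sum_type, ← sum_deg G, ← hl.edges]
    have h1 : ∀ v, deg (ext G ρ up nn) (Sum.inl v) =
        deg G v + ∑ i, (if v = ρ i then (Finset.univ.filter fun j => up i j = true).card else 0) := by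
      intro v
      by_cases hv : ∃ i, v = ρ i
      · obtain ⟨i, rfl⟩ := hv
        rw [d2 i, Finset.sum_eq_single i]
        · simp
        · intro b _ hb
          rw [if_neg]
          intro he
          exact hb (hc.inj he).symm
        · simp
      · push Not at hv
        rw [d1 v hv, Finset.sum_eq_zero]
        · simp
        · intro i _
          rw [if_neg (hv i)]
    have h2 : ∑ v, deg (ext G ρ up nn) (Sum.inl v) =
        ∑ v, deg G v + ∑ i, (Finset.univ.filter fun j => up i j = true).card := by
      rw [Finset.sum_congr rfl fun v _ => h1 v, Finset.sum_add_distrib]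
      congr 1
      rw [Finset.sum_comm]
      refine Finset.sum_congr rfl fun i _ => ?_
      simp
    have h3 : ∑ j, deg (ext G ρ up nn) (Sum.inr j) =
        ∑ j, (Finset.univ.filter fun i => up i j = true).card +
        ∑ j, (Finset.univ.filter fun i => nn i j = true).card := by
      have h : ∑ j, deg (ext G ρ up nn) (Sum.inr j) = ∑ j, ndeg up nn j :=
        Finset.sum_congr rfl fun j _ => d3 j
      rw [h]
      unfold ndeg
      exact Finset.sum_add_distrib
    have h4 : ∑ i, (Finset.univ.filter fun j => up i j = true).card =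
        (Finset.univ.filter fun p : Fin 4 × Fin t => up p.1 p.2 = true).card := by
      simp only [Finset.card_filter, Fintype.sum_prod_type]
    have h5 : ∑ j, (Finset.univ.filter fun i => up i j = true).card =
        (Finset.univ.filter fun p : Fin 4 × Fin t => up p.1 p.2 = true).card := by
      simp only [Finset.card_filter, Fintype.sum_prod_type]
      exact Finset.sum_comm
    have h6 : ∑ j, (Finset.univ.filter fun i => nn i j = true).card =
        (Finset.univ.filter fun p : Fin t × Fin t => nn p.1 p.2 = true).card := by
      simp only [Finset.card_filter, Fintype.sum_prod_type]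
      exact Finset.sum_comm
    rw [h2, h3, h4, h5, h6]
    ring
  refine ⟨fun i j hij => hl.inj (Sum.inr_injective hij), ?_, ?_, ?_, ?_, ?_⟩
  · rintro i ⟨v, _, hv⟩
    exact Sum.inl_ne_inr hv
  · have he := hc.edges
    rw [Fintype.card_sum, Fintype.card_fin]
    omega
  · intro i
    rw [d3]
    exact hl.ringdeg i
  · rintro (v | j) hv hr
    · have hv' : v ∉ h := fun hh => hv ⟨v, hh, rfl⟩
      by_cases hx : ∃ i, v = ρ i
      · obtain ⟨i, rfl⟩ := hx
        rw [d2 i]
        have h1 := hc.ringdeg i
        have h2 := hl.updeg i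
        omega
      · push Not at hx
        rw [d1 v hx]
        exact hc.degs v hv' hx
    · rw [d3]
      exact hl.degs j fun i hi => hr i (by rw [hi])
  · rintro w ⟨v, hv, rfl⟩
    have hx : ∀ i, v ≠ ρ i := by
      intro i hi
      exact hc.nh i (hi ▸ hv)
    rw [d1 v hx]
    exact hc.hdeg v hv

end Pool.Agent.Helper54.CR
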